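import Pool.Agent.K1H49.PL.Gen
import Pool.Agent.K1H1.PL.PFS

set_option autoImplicit false

namespace Pool.Agent.K1H33.PLG

open Pool.Agent.K1H49.PL Pool.Agent.K1H1.PL
open FirstOrder FirstOrder.Language

universe u

variable {L : FirstOrder.Language.{0, 0}} {M : Type u} [L.Structure M]

/-- a term has finitely many variables -/
theorem fin_term {α : Type} (t : L.Term α) : ∃ (V : Type) (_ : Finite V) (f : V → α)
    (t' : L.Term V), ∀ v : α → M, t.realize v = t'.realize (v ∘ f) := by
  induction t with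
  | var a =>
    exact ⟨Unit, inferInstance, fun _ => a, Term.var (), fun v => rfl⟩
  | func F ts ih =>
    choose V hV f t' h using ih
    refine ⟨Σ i, V i, inferInstance, fun x => f x.1 x.2,
      Term.func F (fun i => (t' i).relabel (Sigma.mk i)), fun v => ?_⟩
    simp only [Term.realize_func, Term.realize_relabel]
    congr 1
    funext i
    rw [h i v]
    rfl

theorem fin_fml {α : Type} (φ : PF L α) : ∃ (V : Type) (_ : Finite V) (f : V → α)
    (φ' : PF L V), ∀ v : α → M, φ.Realize v ↔ φ'.Realize (v ∘ f) := by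
  induction φ with
  | eq t s =>
    obtain ⟨V1, h1, f1, t1, e1⟩ := fin_term (M := M) t
    obtain ⟨V2, h2, f2, t2, e2⟩ := fin_term (M := M) s
    refine ⟨V1 ⊕ V2, inferInstance, Sum.elim f1 f2,
      .eq (t1.relabel Sum.inl) (t2.relabel Sum.inr), fun v => ?_⟩
    simp only [PF.Realize, Term.realize_relabel]
    rw [e1 v, e2 v]
    rfl
  | @rel α n R ts =>
    have h : ∀ i, ∃ (V : Type) (_ : Finite V) (f : V → α)
      (t' : L.Term V), ∀ v : α → M, (ts i).realize v = t'.realize (v ∘ f) := fun i =>
        fin_term (M := M) (ts i)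
    choose V hV f t' h using h
    refine ⟨Σ i, V i, inferInstance, fun x => f x.1 x.2,
      .rel R (fun i => (t' i).relabel (Sigma.mk i)), fun v => ?_⟩
    simp only [PF.Realize, Term.realize_relabel]
    have e : (fun i => (ts i).realize v) =
        fun i => (t' i).realize ((v ∘ fun x : Σ i, V i => f x.1 x.2) ∘ Sigma.mk i) := by
      funext i
      rw [h i v]
      rfl
    rw [e]
  | top => exact ⟨Empty, inferInstance, fun e => e.elim, .top, fun v => Iff.rfl⟩
  | bot => exact ⟨Empty, inferInstance, fun e => e.elim, .bot, fun v => Iff.rfl⟩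
  | and φ ψ h1 h2 =>
    obtain ⟨V1, h1, f1, t1, e1⟩ := h1
    obtain ⟨V2, h2, f2, t2, e2⟩ := h2
    refine ⟨V1 ⊕ V2, inferInstance, Sum.elim f1 f2,
      .and (rl t1 Sum.inl) (rl t2 Sum.inr), fun v => ?_⟩
    simp only [PF.Realize, rl_realize]
    rw [e1 v, e2 v]
    rfl
  | or φ ψ h1 h2 =>
    obtain ⟨V1, h1, f1, t1, e1⟩ := h1
    obtain ⟨V2, h2, f2, t2, e2⟩ := h2
    refine ⟨V1 ⊕ V2, inferInstance, Sum.elim f1 f2,
      .or (rl t1 Sum.inl) (rl t2 Sum.inr), fun v => ?_⟩
    simp only [PF.Realize, rl_realize]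
    rw [e1 v, e2 v]
    rfl
  | @ex α φ h =>
    classical
    obtain ⟨V, hV, f, φ', e⟩ := h
    refine ⟨{x : V // (f x).isSome = true}, inferInstance, fun x => (f x.1).get x.2,
      .ex (rl φ' (fun x => if h : (f x).isSome = true then some ⟨x, h⟩ else none)), fun v => ?_⟩
    simp only [PF.Realize, rl_realize]
    apply exists_congr
    intro a
    rw [e]
    have e2 : (fun o : Option α => o.elim a v) ∘ f =
        (fun o : Option {x : V // (f x).isSome = true} =>
          o.elim a (v ∘ fun x => (f x.1).get x.2)) ∘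
          (fun x => if h : (f x).isSome = true then some ⟨x, h⟩ else none) := by
      funext x
      simp only [Function.comp]
      by_cases hx : (f x).isSome = true
      · rw [dif_pos hx]
        obtain ⟨y, hy⟩ := Option.isSome_iff_exists.1 hx
        simp only [hy, Option.elim_some]
        have hg : (f x).get hx = y := Option.some_injective _ (by rw [Option.some_get, hy])
        show v y = v ((f x).get hx)
        rw [hg]
      · rw [dif_neg hx]
        have hn : f x = none := by
          cases hf : f x with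
          | none => rfl
          | some y => rw [hf] at hx; exact absurd rfl hx
        rw [hn]
        rfl
    rw [e2]

theorem t_ECG : S_ECG.{u} := by
  intro L T M _ Y hY hM α S hS v hv
  obtain ⟨φ, rfl⟩ := (hY S).1 hS
  obtain ⟨V, hV, f, φ', e⟩ := fin_fml (M := M) φ
  have h1 : ¬ φ'.Realize (v ∘ f) := fun h => hv ((e v).2 h)
  obtain ⟨ψ, hneg, hψ⟩ := hM.ec φ' (v ∘ f) h1
  refine ⟨{u | (rl ψ f).Realize u}, (hY _).2 ⟨rl ψ f, rfl⟩, (rl_realize ψ f v).2 hψ, ?_⟩
  intro u hu hu'
  exact hneg M hM.mod ⟨u ∘ f, (e u).1 hu, (rl_realize ψ f u).1 hu'⟩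

end Pool.Agent.K1H33.PLG
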