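import Pool.Agent.K1H49.PL.Gen

set_option autoImplicit false

namespace Pool.Agent.K1H33.PLG

open Pool.Agent.K1H49.PL

universe u

/-- a pattern of height `a` in the binary tree extends to a pattern of height `N` -/
theorem ext_pat {a : ℕ} (E : LN a → Nd) (hE : Pt ndl a E) (N : ℕ) :
    ∃ E' : LN N → Nd, Pt ndl N E' ∧ ∀ (η : Nd) (h : η.length ≤ a) (h' : η.length ≤ N),
      E' ⟨η, h'⟩ = E ⟨η, h⟩ := by
  refine ⟨fun η => E ⟨η.1.take a, by rw [List.length_take]; exact Nat.min_le_left _ _⟩ ++
    η.1.drop a, ?_, ?_⟩
  · intro η η' d h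
    show (E ⟨η.1.take a, _⟩ ++ η.1.drop a) ++ [d] <+: E ⟨η'.1.take a, _⟩ ++ η'.1.drop a
    obtain ⟨ρ, hρ⟩ := h
    rcases Nat.lt_or_ge η.1.length a with hl | hl
    · have h1 : η.1.take a = η.1 := List.take_of_length_le hl.le
      have h2 : η.1.drop a = [] := List.drop_of_length_le hl.le
      have h3 : (η.1.take a ++ [d]) <+: η'.1.take a := by
        rw [h1, ← hρ]
        refine ⟨ρ.take (a - (η.1 ++ [d]).length), ?_⟩
        rw [List.take_append, List.take_of_length_le (l := η.1 ++ [d])
          (by rw [List.length_append]; simpa using hl)]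
      have h4 := hE ⟨η.1.take a, by rw [List.length_take]; exact Nat.min_le_left _ _⟩
        ⟨η'.1.take a, by rw [List.length_take]; exact Nat.min_le_left _ _⟩ d h3
      have h5 : (E ⟨η.1.take a, by rw [List.length_take]; exact Nat.min_le_left _ _⟩ ++ [d]) <+:
        E ⟨η'.1.take a, by rw [List.length_take]; exact Nat.min_le_left _ _⟩ := h4
      rw [h2, List.append_nil]
      exact h5.trans (List.prefix_append _ _)
    · have h1 : η'.1.take a = η.1.take a := by
        rw [← hρ, List.append_assoc, List.take_append_of_le_length hl]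
      have h2 : η'.1.drop a = η.1.drop a ++ ([d] ++ ρ) := by
        rw [← hρ, List.append_assoc, List.drop_append_of_le_length hl]
      have h3 : (⟨η'.1.take a, by rw [List.length_take]; exact Nat.min_le_left _ _⟩ : LN a) =
          ⟨η.1.take a, by rw [List.length_take]; exact Nat.min_le_left _ _⟩ := Subtype.ext h1
      rw [h3, h2]
      refine ⟨ρ, ?_⟩
      simp only [List.append_assoc]
  · intro η h h'
    show E ⟨η.take a, _⟩ ++ η.drop a = _
    have h1 : (⟨η.take a, by rw [List.length_take]; exact Nat.min_le_left _ _⟩ : LN a) = ⟨η, h⟩ :=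
      Subtype.ext (List.take_of_length_le h)
    rw [h1, List.drop_of_length_le h, List.append_nil]

open Classical in
/-- surgery: replace the parts of a pattern in the two cones of `π` -/
theorem surg {I : Type} {lt : Bool → I → I → Prop} (hB : BT lt) (π : I) (C : Bool → Nd → I)
    (hC : ∀ d, Cpy lt (C d)) (hπ : ∀ d τ, lt d π (C d τ)) {n : ℕ} (E0 : LN n → I)
    (h0 : Pt lt n E0) (G : Bool → LN n → Nd) (hG : ∀ d, Pt ndl n (G d)) :
    Pt lt n (fun η => if lt false π (E0 η) then C false (G false η)
      else if lt true π (E0 η) then C true (G true η) else E0 η) := by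
  have irr : ∀ d a, ¬ lt d a a := by
    intro d a h
    exact (hB.wf.irrefl.irrefl a) ⟨d, h⟩
  have key : ∀ (d d' : Bool) (η η' : LN n), (η.1 ++ [d']) <+: η'.1 → lt d π (E0 η') →
      ¬ (∃ e, lt e π (E0 η)) → lt d' (E0 η) (C d (G d η')) := by
    intro d d' η η' h hc hn
    have h1 := h0 η η' d' h
    rcases hB.lin h1 hc with h2 | ⟨e, h2⟩ | ⟨e, h2⟩
    · rw [h2] at h1 ⊢
      have h3 := hB.uniq h1 hc
      rw [h3]
      exact hπ d _
    · have h3 := hB.trans h2 hc
      have h4 := hB.uniq h1 h3
      rw [h4]
      exact hB.trans h2 (hπ d _)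
    · exact absurd ⟨e, h2⟩ hn
  intro η η' d' h
  have h1 := h0 η η' d' h
  show lt d' (if lt false π (E0 η) then C false (G false η)
      else if lt true π (E0 η) then C true (G true η) else E0 η)
      (if lt false π (E0 η') then C false (G false η')
      else if lt true π (E0 η') then C true (G true η') else E0 η')
  by_cases a0 : lt false π (E0 η)
  · have b0 : lt false π (E0 η') := hB.trans a0 h1
    rw [if_pos a0, if_pos b0]
    exact hC false _ _ _ (hG false η η' d' h)
  · by_cases a1 : lt true π (E0 η)
    · have b1 : lt true π (E0 η') := hB.trans a1 h1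
      have b0 : ¬ lt false π (E0 η') := fun hh => by
        have := hB.uniq hh b1
        exact absurd this (by decide)
      rw [if_neg a0, if_pos a1, if_neg b0, if_pos b1]
      exact hC true _ _ _ (hG true η η' d' h)
    · rw [if_neg a0, if_neg a1]
      have hn : ¬ ∃ e, lt e π (E0 η) := by
        rintro ⟨e, he⟩
        cases e
        · exact a0 he
        · exact a1 he
      by_cases b0 : lt false π (E0 η')
      · rw [if_pos b0]
        exact key false d' η η' h b0 hn
      · rw [if_neg b0]
        by_cases b1 : lt true π (E0 η')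
        · rw [if_pos b1]
          exact key true d' η η' h b1 hn
        · rw [if_neg b1]
          exact h1

end Pool.Agent.K1H33.PLG
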